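import Pool.Agent.Helper44.MT.Defs

/-!
# Eigensymbols of weight two: change of the level structure (helper40)
-/

set_option autoImplicit false

namespace Pool.Agent.Helper44.MT

open MvPolynomial Matrix

section

variable {A : Type*} [Field A]

/-- The determinants which occur. -/
def Good40 (p : ℕ) (g : Matrix (Fin 2) (Fin 2) ℤ) : Prop :=
  g.det = 1 ∨ g.det = p ∨ g.det = (p : ℤ) * p

/-- Eigensymbols. -/
structure IsEig40 {H : Type*} (m : Matrix (Fin 2) (Fin 2) ℤ → H → H) (p : ℕ) (a c : A)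
    (f : Cochain2 H A) : Prop where
  symb : IsSymbol2 m f
  T : T2 m p f = a • f
  R : R2 m p f = c • f

theorem good_one40 {p : ℕ} {g : Matrix (Fin 2) (Fin 2) ℤ} (h : g.det = 1) : Good40 p g := Or.inl h

theorem good_diag40 (p : ℕ) : Good40 p !![(p : ℤ), 0; 0, 1] := by
  right; left
  rw [Matrix.det_fin_two_of]; ring

theorem good_upper40 (p : ℕ) (i : ℤ) : Good40 p !![1, i; 0, (p : ℤ)] := by
  right; left
  rw [Matrix.det_fin_two_of]; ring

theorem good_scalar40 (p : ℕ) : Good40 p !![(p : ℤ), 0; 0, (p : ℤ)] := by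
  right; right
  rw [Matrix.det_fin_two_of]; ring

open Classical in
/-- Change of the level structure. -/
theorem push40 {H H' : Type*} {m : Matrix (Fin 2) (Fin 2) ℤ → H → H}
    {m' : Matrix (Fin 2) (Fin 2) ℤ → H' → H'} {p : ℕ} {a c : A} {f : Cochain2 H A}
    (φ : H' → H) (U : H' → Prop) (hU : ∀ g, Good40 p g → ∀ h, U (m' g h) ↔ U h)
    (hφ : ∀ g, Good40 p g → ∀ h, U h → ∀ x y, f x y (φ (m' g h)) = f x y (m g (φ h)))
    (hf : IsEig40 m p a c f) :
    IsEig40 m' p a c (fun x y h => if U h then f x y (φ h) else 0) := by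
  have hact : ∀ g, Good40 p g → ∀ x y h,
      act2 m' g (fun x y h => if U h then f x y (φ h) else 0) x y h =
        if U h then act2 m g f x y (φ h) else 0 := by
    intro g hg x y h
    change (if U (m' g h) then f (g *ᵥ x) (g *ᵥ y) (φ (m' g h)) else 0) =
      if U h then f (g *ᵥ x) (g *ᵥ y) (m g (φ h)) else 0
    rw [if_congr (hU g hg h) rfl rfl]
    split_ifs with h1
    · exact hφ g hg h h1 _ _
    · rfl
  refine ⟨⟨?_, ?_, ?_, ?_, ?_⟩, ?_, ?_⟩
  · intro y h
    change (if U h then f 0 y (φ h) else 0) = 0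
    rw [hf.symb.zero_left, ite_self]
  · intro x h
    change (if U h then f x 0 (φ h) else 0) = 0
    rw [hf.symb.zero_right, ite_self]
  · intro x y z hx hy hz h
    change (if U h then f x y (φ h) else 0) + (if U h then f y z (φ h) else 0) =
      (if U h then f x z (φ h) else 0)
    split_ifs
    · exact hf.symb.trans x y z hx hy hz _
    · exact add_zero _
  · intro n hn x y h
    change (if U h then f (n • x) y (φ h) else 0) = (if U h then f x y (φ h) else 0)
    rw [hf.symb.scale n hn]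
  · intro g hg
    funext x y h
    rw [hact g (good_one40 hg), hf.symb.inv g hg]
  · funext x y h
    have h1 := congrFun (congrFun (congrFun hf.T x) y) (φ h)
    change act2 m' !![(p : ℤ), 0; 0, 1] _ x y h +
      (∑ i ∈ Finset.range p, act2 m' !![1, (i : ℤ); 0, (p : ℤ)]
        (fun x y h => if U h then f x y (φ h) else 0)) x y h = a * (if U h then f x y (φ h) else 0)
    change act2 m !![(p : ℤ), 0; 0, 1] f x y (φ h) +
      (∑ i ∈ Finset.range p, act2 m !![1, (i : ℤ); 0, (p : ℤ)] f) x y (φ h) =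
        a * f x y (φ h) at h1
    rw [hact _ (good_diag40 p)]
    rw [Finset.sum_apply, Finset.sum_apply, Finset.sum_apply] at h1 ⊢
    rw [Finset.sum_congr rfl fun (i : ℕ) _ => hact _ (good_upper40 p i) x y h]
    split_ifs with hUh
    · exact h1
    · rw [Finset.sum_const_zero, add_zero, mul_zero]
  · funext x y h
    have h1 := congrFun (congrFun (congrFun hf.R x) y) (φ h)
    change act2 m' !![(p : ℤ), 0; 0, (p : ℤ)] (fun x y h => if U h then f x y (φ h) else 0) x y h =
      c * (if U h then f x y (φ h) else 0)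
    change act2 m !![(p : ℤ), 0; 0, (p : ℤ)] f x y (φ h) = c * f x y (φ h) at h1
    rw [hact _ (good_scalar40 p)]
    split_ifs with hUh
    · exact h1
    · rw [mul_zero]

theorem push'40 {H H' : Type*} {m : Matrix (Fin 2) (Fin 2) ℤ → H → H}
    {m' : Matrix (Fin 2) (Fin 2) ℤ → H' → H'} {p : ℕ} {a c : A} {f : Cochain2 H A}
    (φ : H' → H) (hφ : ∀ g, Good40 p g → ∀ h, φ (m' g h) = m g (φ h))
    (hf : IsEig40 m p a c f) :
    IsEig40 m' p a c (fun x y h => f x y (φ h)) := by
  have h1 := push40 (m' := m') φ (fun _ => True) (fun _ _ _ => Iff.rfl)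
    (fun g hg h _ x y => by rw [hφ g hg h]) hf
  simpa using h1

/-- The action as a linear map. -/
def actL40 {H : Type*} (m : Matrix (Fin 2) (Fin 2) ℤ → H → H) (g : Matrix (Fin 2) (Fin 2) ℤ) :
    Cochain2 H A →ₗ[A] Cochain2 H A where
  toFun := act2 m g
  map_add' _ _ := rfl
  map_smul' _ _ := rfl

theorem T2_eq40 {H : Type*} (m : Matrix (Fin 2) (Fin 2) ℤ → H → H) (p : ℕ) (f : Cochain2 H A) :
    T2 m p f = (actL40 m !![(p : ℤ), 0; 0, 1] +
      ∑ i ∈ Finset.range p, actL40 m !![1, (i : ℤ); 0, (p : ℤ)] :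
        Cochain2 H A →ₗ[A] Cochain2 H A) f := by
  rw [LinearMap.add_apply, LinearMap.sum_apply]
  rfl

/-- The space of eigensymbols supported on `U`. -/
def eigSub40 {H : Type*} (m : Matrix (Fin 2) (Fin 2) ℤ → H → H) (p : ℕ) (a c : A)
    (U : H → Prop) : Submodule A (Cochain2 H A) where
  carrier := {f | IsEig40 m p a c f ∧ ∀ x y h, ¬ U h → f x y h = 0}
  zero_mem' := by
    refine ⟨⟨⟨fun _ _ => rfl, fun _ _ => rfl, fun _ _ _ _ _ _ _ => add_zero _,
      fun _ _ _ _ _ => rfl, fun _ _ => rfl⟩, ?_, ?_⟩, fun _ _ _ _ => rfl⟩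
    · rw [T2_eq40, map_zero, smul_zero]
    · rw [smul_zero]; rfl
  add_mem' := by
    rintro f g ⟨hf, hf'⟩ ⟨hg, hg'⟩
    refine ⟨⟨⟨?_, ?_, ?_, ?_, ?_⟩, ?_, ?_⟩, ?_⟩
    · intro y h
      change f 0 y h + g 0 y h = 0
      rw [hf.symb.zero_left, hg.symb.zero_left, add_zero]
    · intro x h
      change f x 0 h + g x 0 h = 0
      rw [hf.symb.zero_right, hg.symb.zero_right, add_zero]
    · intro x y z hx hy hz h
      change (f x y h + g x y h) + (f y z h + g y z h) = f x z h + g x z h
      rw [← hf.symb.trans x y z hx hy hz, ← hg.symb.trans x y z hx hy hz]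
      ring
    · intro n hn x y h
      change f (n • x) y h + g (n • x) y h = f x y h + g x y h
      rw [hf.symb.scale n hn, hg.symb.scale n hn]
    · intro M hM
      change act2 m M f + act2 m M g = f + g
      rw [hf.symb.inv M hM, hg.symb.inv M hM]
    · rw [T2_eq40, map_add, ← T2_eq40, ← T2_eq40, hf.T, hg.T, smul_add]
    · change R2 m p f + R2 m p g = c • (f + g)
      rw [hf.R, hg.R, smul_add]
    · intro x y h hU
      change f x y h + g x y h = 0
      rw [hf' x y h hU, hg' x y h hU, add_zero]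
  smul_mem' := by
    rintro b f ⟨hf, hf'⟩
    refine ⟨⟨⟨?_, ?_, ?_, ?_, ?_⟩, ?_, ?_⟩, ?_⟩
    · intro y h
      change b * f 0 y h = 0
      rw [hf.symb.zero_left, mul_zero]
    · intro x h
      change b * f x 0 h = 0
      rw [hf.symb.zero_right, mul_zero]
    · intro x y z hx hy hz h
      change b * f x y h + b * f y z h = b * f x z h
      rw [← hf.symb.trans x y z hx hy hz]
      ring
    · intro n hn x y h
      change b * f (n • x) y h = b * f x y h
      rw [hf.symb.scale n hn]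
    · intro M hM
      change b • act2 m M f = b • f
      rw [hf.symb.inv M hM]
    · rw [T2_eq40, map_smul, ← T2_eq40, hf.T, smul_comm]
    · change b • R2 m p f = c • (b • f)
      rw [hf.R, smul_comm]
    · intro x y h hU
      change b * f x y h = 0
      rw [hf' x y h hU, mul_zero]

theorem mem_eigSub40 {H : Type*} {m : Matrix (Fin 2) (Fin 2) ℤ → H → H} {p : ℕ} {a c : A}
    {U : H → Prop} {f : Cochain2 H A} :
    f ∈ eigSub40 m p a c U ↔ IsEig40 m p a c f ∧ ∀ x y h, ¬ U h → f x y h = 0 := Iff.rfl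

/-- Translation of the level structure. -/
def transL40 {H : Type*} (u : H → H) : Module.End A (Cochain2 H A) where
  toFun f := fun x y h => f x y (u h)
  map_add' _ _ := rfl
  map_smul' _ _ := rfl

theorem transL_apply40 {H : Type*} (u : H → H) (f : Cochain2 H A) (x y : Fin 2 → ℤ) (h : H) :
    (transL40 u : Module.End A (Cochain2 H A)) f x y h = f x y (u h) := rfl

theorem transL_mul40 {H : Type*} (u v : H → H) :
    (transL40 u * transL40 v : Module.End A (Cochain2 H A)) = transL40 (v ∘ u) := rfl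

theorem transL_one40 {H : Type*} : (transL40 id : Module.End A (Cochain2 H A)) = 1 := rfl

theorem transL_pow40 {H : Type*} (u : H → H) (n : ℕ) :
    (transL40 u ^ n : Module.End A (Cochain2 H A)) = transL40 (u^[n]) := by
  induction n with
  | zero => rfl
  | succ n ih => rw [pow_succ, ih, transL_mul40, Function.iterate_succ']

theorem transL_mem40 {H : Type*} {m : Matrix (Fin 2) (Fin 2) ℤ → H → H} {p : ℕ} {a c : A}
    {U : H → Prop} (u : H → H) (hu : ∀ h, U (u h) → U h)
    (hm : ∀ g, Good40 p g → ∀ h, u (m g h) = m g (u h)) (f : Cochain2 H A)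
    (hf : f ∈ eigSub40 m p a c U) : transL40 u f ∈ eigSub40 m p a c U :=
  ⟨push'40 u hm hf.1, fun x y h hh => hf.2 x y (u h) (fun h' => hh (hu h h'))⟩

/-- An operator of order `r` in characteristic `r` has fixed vectors. -/
theorem fix_one40 {V : Type*} [AddCommGroup V] [Module A V] {r : ℕ} [Fact r.Prime] [CharP A r]
    (S : Module.End A V) (hS : S ^ r = 1) (W : Submodule A V) (hW : ∀ v ∈ W, S v ∈ W) {v : V}
    (hv : v ∈ W) (h0 : v ≠ 0) : ∃ w ∈ W, w ≠ 0 ∧ S w = w := by
  classical
  have hpow : (S - 1) ^ r = 0 := by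
    have h1 : (Polynomial.X - 1 : Polynomial A) ^ r = Polynomial.X ^ r - 1 := by
      rw [sub_pow_char, one_pow]
    have h2 := congrArg (Polynomial.aeval S) h1
    rw [map_pow, map_sub, map_sub, map_pow, Polynomial.aeval_X, map_one, hS, sub_self] at h2
    exact h2
  have hex : ∃ k : ℕ, ((S - 1 : Module.End A V) ^ k) v = 0 := ⟨r, by rw [hpow]; rfl⟩
  have hne : Nat.find hex ≠ 0 := fun h => h0 (by
    have h1 := Nat.find_spec hex
    rw [h, pow_zero] at h1
    exact h1)
  obtain ⟨j, hj⟩ : ∃ j, Nat.find hex = j + 1 := ⟨Nat.find hex - 1, by omega⟩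
  have hmem : ∀ k : ℕ, ((S - 1 : Module.End A V) ^ k) v ∈ W := by
    intro k
    induction k with
    | zero => exact hv
    | succ k ih =>
      rw [pow_succ']
      exact W.sub_mem (hW _ ih) ih
  refine ⟨((S - 1 : Module.End A V) ^ j) v, hmem j, Nat.find_min hex (by omega), ?_⟩
  have h3 := Nat.find_spec hex
  rw [hj, pow_succ'] at h3
  exact sub_eq_zero.mp h3

theorem fix_list40 {V ι : Type*} [AddCommGroup V] [Module A V] {r : ℕ} [Fact r.Prime]
    [CharP A r] (S : ι → Module.End A V) (hS : ∀ i, S i ^ r = 1)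
    (hc : ∀ i j, S i * S j = S j * S i) (L : List ι) :
    ∀ (W : Submodule A V) (_ : ∀ i, ∀ v ∈ W, S i v ∈ W) {v : V} (_ : v ∈ W) (_ : v ≠ 0),
      ∃ w ∈ W, w ≠ 0 ∧ ∀ i ∈ L, S i w = w := by
  induction L with
  | nil => exact fun W _ v hv h0 => ⟨v, hv, h0, fun i hi => absurd hi (List.not_mem_nil)⟩
  | cons i L ih =>
    intro W hW v hv h0
    obtain ⟨w, hw, hw0, hwf⟩ := fix_one40 (S i) (hS i) W (hW i) hv h0
    obtain ⟨w', hw', hw0', hwf'⟩ := ih (W ⊓ LinearMap.ker (S i - 1)) (by
      rintro j z ⟨hz, hz'⟩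
      refine ⟨hW j z hz, ?_⟩
      have h1 : S i z = z := sub_eq_zero.mp hz'
      have h2 : S i (S j z) = S j (S i z) := LinearMap.congr_fun (hc i j) z
      exact sub_eq_zero.mpr (by rw [h2, h1]; rfl)) (v := w)
      ⟨hw, LinearMap.mem_ker.mpr (sub_eq_zero.mpr hwf)⟩ hw0
    refine ⟨w', hw'.1, hw0', ?_⟩
    intro j hj
    rcases List.mem_cons.mp hj with rfl | hj
    · exact sub_eq_zero.mp hw'.2
    · exact hwf' j hj

end

end Pool.Agent.Helper44.MT
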