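import Pool.Agent.Helper40.MT.E

/-!
# Block C: from full level `r` to vectors modulo `r` (helper40)
-/

set_option autoImplicit false

namespace Pool.Agent.Helper44.MT

open MvPolynomial Matrix

section

variable {A : Type*} [Field A]

open Classical in
/-- Change of the level structure with a twist. -/
theorem pushw40 {H H' : Type*} {m : Matrix (Fin 2) (Fin 2) ℤ → H → H}
    {m' : Matrix (Fin 2) (Fin 2) ℤ → H' → H'} {p : ℕ} {a c b : A} {f : Cochain2 H A}
    (φ : H' → H) (U : H' → Prop) (hU : ∀ g, Good40 p g → ∀ h, U (m' g h) ↔ U h)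
    (hφ1 : ∀ g, g.det = 1 → ∀ h, U h → ∀ x y, f x y (φ (m' g h)) = f x y (m g (φ h)))
    (hφp : ∀ g, g.det = (p : ℤ) → ∀ h, U h → ∀ x y, f x y (φ (m' g h)) = b * f x y (m g (φ h)))
    (hφpp : ∀ g, g.det = (p : ℤ) * p → ∀ h, U h → ∀ x y,
      f x y (φ (m' g h)) = b ^ 2 * f x y (m g (φ h)))
    (hf : IsEig40 m p a c f) :
    IsEig40 m' p (b * a) (b ^ 2 * c) (fun x y h => if U h then f x y (φ h) else 0) := by
  have hact1 : ∀ g, g.det = 1 → ∀ x y h,
      act2 m' g (fun x y h => if U h then f x y (φ h) else 0) x y h =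
        if U h then act2 m g f x y (φ h) else 0 := by
    intro g hg x y h
    change (if U (m' g h) then f (g *ᵥ x) (g *ᵥ y) (φ (m' g h)) else 0) =
      if U h then f (g *ᵥ x) (g *ᵥ y) (m g (φ h)) else 0
    rw [if_congr (hU g (Or.inl hg) h) rfl rfl]
    split_ifs with h1
    · exact hφ1 g hg h h1 _ _
    · rfl
  have hactp : ∀ g, g.det = (p : ℤ) → ∀ x y h,
      act2 m' g (fun x y h => if U h then f x y (φ h) else 0) x y h =
        b * if U h then act2 m g f x y (φ h) else 0 := by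
    intro g hg x y h
    change (if U (m' g h) then f (g *ᵥ x) (g *ᵥ y) (φ (m' g h)) else 0) =
      b * if U h then f (g *ᵥ x) (g *ᵥ y) (m g (φ h)) else 0
    rw [if_congr (hU g (Or.inr (Or.inl hg)) h) rfl rfl]
    split_ifs with h1
    · exact hφp g hg h h1 _ _
    · rw [mul_zero]
  have hactpp : ∀ g, g.det = (p : ℤ) * p → ∀ x y h,
      act2 m' g (fun x y h => if U h then f x y (φ h) else 0) x y h =
        b ^ 2 * if U h then act2 m g f x y (φ h) else 0 := by
    intro g hg x y h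
    change (if U (m' g h) then f (g *ᵥ x) (g *ᵥ y) (φ (m' g h)) else 0) =
      b ^ 2 * if U h then f (g *ᵥ x) (g *ᵥ y) (m g (φ h)) else 0
    rw [if_congr (hU g (Or.inr (Or.inr hg)) h) rfl rfl]
    split_ifs with h1
    · exact hφpp g hg h h1 _ _
    · rw [mul_zero]
  refine ⟨⟨?_, ?_, ?_, ?_, ?_⟩, ?_, ?_⟩
  · intro y h
    change (if U h then f 0 y (φ h) else 0) = 0
    rw [hf.symb.zero_left, ite_self]
  · intro x h
    change (if U h then f x 0 (φ h) else 0) = 0
    rw [hf.symb.zero_right, ite_self]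
  · intro x y z hx hy hz h
    change (if U h then f x y (φ h) else 0) + (if U h then f y z (φ h) else 0) =
      (if U h then f x z (φ h) else 0)
    split_ifs
    · exact hf.symb.trans x y z hx hy hz _
    · exact add_zero _
  · intro n hn x y h
    change (if U h then f (n • x) y (φ h) else 0) = (if U h then f x y (φ h) else 0)
    rw [hf.symb.scale n hn]
  · intro g hg
    funext x y h
    rw [hact1 g hg, hf.symb.inv g hg]
  · funext x y h
    have h1 := congrFun (congrFun (congrFun hf.T x) y) (φ h)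
    change act2 m' !![(p : ℤ), 0; 0, 1] _ x y h +
      (∑ i ∈ Finset.range p, act2 m' !![1, (i : ℤ); 0, (p : ℤ)]
        (fun x y h => if U h then f x y (φ h) else 0)) x y h =
        b * a * (if U h then f x y (φ h) else 0)
    change act2 m !![(p : ℤ), 0; 0, 1] f x y (φ h) +
      (∑ i ∈ Finset.range p, act2 m !![1, (i : ℤ); 0, (p : ℤ)] f) x y (φ h) =
        a * f x y (φ h) at h1
    rw [hactp _ (by rw [Matrix.det_fin_two_of]; ring)]
    rw [Finset.sum_apply, Finset.sum_apply, Finset.sum_apply] at h1 ⊢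
    rw [Finset.sum_congr rfl fun (i : ℕ) _ => hactp !![1, (i : ℤ); 0, (p : ℤ)]
      (by rw [Matrix.det_fin_two_of]; ring) x y h]
    split_ifs with hUh
    · rw [← Finset.mul_sum, ← mul_add, h1, mul_assoc]
    · simp
  · funext x y h
    have h1 := congrFun (congrFun (congrFun hf.R x) y) (φ h)
    change act2 m' !![(p : ℤ), 0; 0, (p : ℤ)] (fun x y h => if U h then f x y (φ h) else 0) x y h =
      b ^ 2 * c * (if U h then f x y (φ h) else 0)
    change act2 m !![(p : ℤ), 0; 0, (p : ℤ)] f x y (φ h) = c * f x y (φ h) at h1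
    rw [hactpp _ (by rw [Matrix.det_fin_two_of]; ring)]
    split_ifs with hUh
    · rw [h1, mul_assoc]
    · rw [mul_zero, mul_zero]

/-- Existence of eigenvectors from an annihilating polynomial. -/
theorem eigen40 [IsAlgClosed A] {V : Type*} [AddCommGroup V] [Module A V]
    (S : Module.End A V) (W : Submodule A V) (hW : ∀ v ∈ W, S v ∈ W) {v : V}
    (hv : v ∈ W) (h0 : v ≠ 0) : ∀ (n : ℕ) (q : Polynomial A), q.natDegree = n → q ≠ 0 →
      Polynomial.aeval S q v = 0 → ∃ w ∈ W, w ≠ 0 ∧ ∃ χ : A, S w = χ • w := by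
  intro n
  have hmem : ∀ q : Polynomial A, Polynomial.aeval S q v ∈ W := by
    intro q
    induction q using Polynomial.induction_on' with
    | add f g hf hg =>
      rw [map_add]
      exact W.add_mem hf hg
    | monomial k b =>
      rw [Polynomial.aeval_monomial, Module.End.mul_apply, Module.algebraMap_end_apply]
      refine W.smul_mem _ ?_
      induction k with
      | zero => exact hv
      | succ k ih => rw [pow_succ']; exact hW _ ih
  induction n with
  | zero =>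
    intro q hq hq0 hqv
    rw [Polynomial.eq_C_of_natDegree_eq_zero hq] at hqv hq0
    rw [Polynomial.aeval_C, Module.algebraMap_end_apply] at hqv
    rcases smul_eq_zero.mp hqv with h1 | h1
    · rw [h1, Polynomial.C_0] at hq0
      exact absurd rfl hq0
    · exact absurd h1 h0
  | succ n ih =>
    intro q hq hq0 hqv
    have hdeg : q.degree ≠ 0 := by
      intro h1
      have h2 := Polynomial.natDegree_eq_zero_iff_degree_le_zero.mpr h1.le
      omega
    obtain ⟨χ, hχ⟩ := IsAlgClosed.exists_root q hdeg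
    obtain ⟨q', rfl⟩ := Polynomial.dvd_iff_isRoot.mpr hχ
    by_cases hw : Polynomial.aeval S q' v = 0
    · have hq'0 : q' ≠ 0 := right_ne_zero_of_mul hq0
      refine ih q' ?_ hq'0 hw
      rw [Polynomial.natDegree_mul (Polynomial.X_sub_C_ne_zero χ) hq'0,
        Polynomial.natDegree_X_sub_C] at hq
      omega
    · refine ⟨_, hmem q', hw, χ, ?_⟩
      rw [map_mul, map_sub, Polynomial.aeval_X, Polynomial.aeval_C] at hqv
      exact sub_eq_zero.mp hqv

theorem upper_pow40 {r : ℕ} (n : ℕ) :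
    (!![1, 1; 0, 1] : Matrix (Fin 2) (Fin 2) (ZMod r)) ^ n = !![1, (n : ZMod r); 0, 1] := by
  induction n with
  | zero => rw [pow_zero, Nat.cast_zero, Matrix.one_fin_two]
  | succ n ih =>
    rw [pow_succ, ih, Nat.cast_succ]
    ext i j
    fin_cases i <;> fin_cases j <;> simp [Matrix.mul_apply, add_comm]

theorem diag_pow40 {r : ℕ} (p : ZMod r) (n : ℕ) :
    (!![1, 0; 0, p] : Matrix (Fin 2) (Fin 2) (ZMod r)) ^ n = !![1, 0; 0, p ^ n] := by
  induction n with
  | zero => rw [pow_zero, pow_zero, Matrix.one_fin_two]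
  | succ n ih =>
    rw [pow_succ, ih, pow_succ]
    ext i j
    fin_cases i <;> fin_cases j <;> simp [Matrix.mul_apply]

/-- Matrices with the same first column and the same determinant. -/
theorem col40 {r : ℕ} [Fact r.Prime] (G K : Matrix (Fin 2) (Fin 2) (ZMod r)) (hG : G.det ≠ 0)
    (hd : K.det = G.det) (h0 : K 0 0 = G 0 0) (h1 : K 1 0 = G 1 0) :
    ∃ t : ZMod r, K = G * !![1, t; 0, 1] := by
  rw [Matrix.det_fin_two, Matrix.det_fin_two, h0, h1] at hd
  rw [Matrix.det_fin_two] at hG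
  generalize hδ : G 0 0 * G 1 1 - G 0 1 * G 1 0 = δ at hd hG
  refine ⟨(G 1 1 * (K 0 1 - G 0 1) - G 0 1 * (K 1 1 - G 1 1)) * δ⁻¹, ?_⟩
  have h2 : K 0 1 = G 0 0 * ((G 1 1 * (K 0 1 - G 0 1) - G 0 1 * (K 1 1 - G 1 1)) * δ⁻¹) +
      G 0 1 := by
    field_simp
    linear_combination (G 0 1) * hd - (K 0 1) * hδ
  have h3 : K 1 1 = G 1 0 * ((G 1 1 * (K 0 1 - G 0 1) - G 0 1 * (K 1 1 - G 1 1)) * δ⁻¹) +
      G 1 1 := by
    field_simp
    linear_combination (G 1 1) * hd - (K 1 1) * hδ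
  ext i j
  fin_cases i <;> fin_cases j
  · simpa [Matrix.mul_apply] using h0
  · simpa [Matrix.mul_apply] using h2
  · simpa [Matrix.mul_apply] using h1
  · simpa [Matrix.mul_apply] using h3

theorem exists_col40 {r : ℕ} [Fact r.Prime] (h : Fin 2 → ZMod r) :
    ∃ G : Matrix (Fin 2) (Fin 2) (ZMod r), h ≠ 0 → G.det = 1 ∧ G 0 0 = h 0 ∧ G 1 0 = h 1 := by
  by_cases h0 : h 0 = 0
  · by_cases h1 : h 1 = 0
    · refine ⟨1, fun hne => absurd ?_ hne⟩
      funext i
      fin_cases i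
      · exact h0
      · exact h1
    · refine ⟨!![h 0, -(h 1)⁻¹; h 1, 0], fun _ => ⟨?_, rfl, rfl⟩⟩
      rw [Matrix.det_fin_two_of, mul_zero, zero_sub, neg_mul, neg_neg, inv_mul_cancel₀ h1]
  · refine ⟨!![h 0, 0; h 1, (h 0)⁻¹], fun _ => ⟨?_, rfl, rfl⟩⟩
    rw [Matrix.det_fin_two_of, zero_mul, sub_zero, mul_inv_cancel₀ h0]

theorem pow_unit40 {r p : ℕ} [Fact r.Prime] (hp0 : (p : ZMod r) ≠ 0) (k : ℕ) :
    (p : ZMod r) ^ k * (p : ZMod r) ^ (k * (r - 2)) = 1 := by
  have hr2 : 2 ≤ r := (Fact.out : r.Prime).two_le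
  have h1 : k + k * (r - 2) = (r - 1) * k := by
    obtain ⟨m, rfl⟩ : ∃ m, r = m + 2 := ⟨r - 2, by omega⟩
    have h2 : m + 2 - 2 = m := by omega
    have h3 : m + 2 - 1 = m + 1 := by omega
    rw [h2, h3]; ring
  rw [← pow_add, h1, pow_mul, ZMod.pow_card_sub_one_eq_one hp0, one_pow]

theorem U_iff40 {r p : ℕ} [Fact r.Prime] (hp0 : (p : ZMod r) ≠ 0) (j : ℕ) (d : ZMod r) :
    (∃ k : ℕ, (p : ZMod r) ^ j * d = (p : ZMod r) ^ k) ↔ ∃ k : ℕ, d = (p : ZMod r) ^ k := by
  constructor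
  · rintro ⟨k, hk⟩
    refine ⟨k + j * (r - 2), ?_⟩
    rw [pow_add, ← hk]
    linear_combination (-d) * pow_unit40 hp0 j
  · rintro ⟨k, rfl⟩
    exact ⟨j + k, (pow_add _ _ _).symm⟩

theorem good_pow40 {r p : ℕ} {g : Matrix (Fin 2) (Fin 2) ℤ} (hg : Good40 p g) :
    ∃ j : ℕ, (g.map (Int.cast : ℤ → ZMod r)).det = (p : ZMod r) ^ j := by
  have h1 : (g.map (Int.cast : ℤ → ZMod r)).det = ((g.det : ℤ) : ZMod r) :=
    (RingHom.map_det (Int.castRingHom (ZMod r)) g).symm
  rcases hg with h | h | h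
  · exact ⟨0, by rw [h1, h, Int.cast_one, pow_zero]⟩
  · exact ⟨1, by rw [h1, h, Int.cast_natCast, pow_one]⟩
  · exact ⟨2, by rw [h1, h, Int.cast_mul, Int.cast_natCast, pow_two]⟩

open Classical in
/-- block C (helper40): from `Γ(r)` to `Γ₁(r)` -/
theorem lemC [IsAlgClosed A] {r : ℕ} [Fact r.Prime] [CharP A r] {p : ℕ}
    (hp : p.Coprime r) (h : Regular2 A (mvec r) p (fun f => ∀ x y, f x y 0 = 0)) :
    Regular2 A (mfull r) p (fun _ => True) := by
  intro f a c hs _ hT hR hac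
  by_contra h0
  have hr2 : 2 ≤ r := (Fact.out : r.Prime).two_le
  have hp0 : (p : ZMod r) ≠ 0 := by
    intro hh
    rw [ZMod.natCast_eq_zero_iff] at hh
    have := Nat.Coprime.eq_one_of_dvd hp.symm hh
    omega
  set u : Matrix (Fin 2) (Fin 2) (ZMod r) := !![1, 1; 0, 1] with hu
  set s : Matrix (Fin 2) (Fin 2) (ZMod r) := !![1, 0; 0, (p : ZMod r)] with hsdef
  have hud : u.det = 1 := by rw [hu, Matrix.det_fin_two_of]; ring
  have hsd : s.det = (p : ZMod r) ^ 1 := by rw [hsdef, Matrix.det_fin_two_of]; ring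
  let U : Matrix (Fin 2) (Fin 2) (ZMod r) → Prop := fun H => ∃ k : ℕ, H.det = (p : ZMod r) ^ k
  have hUg : ∀ g, Good40 p g → ∀ H, U (mfull r g H) ↔ U H := by
    intro g hg H
    obtain ⟨j, hj⟩ := good_pow40 (r := r) hg
    change (∃ k : ℕ, (mfull r g H).det = (p : ZMod r) ^ k) ↔ ∃ k : ℕ, H.det = (p : ZMod r) ^ k
    rw [mfull, Matrix.det_mul, hj]
    exact U_iff40 hp0 j _
  have hUu : ∀ H, U (H * u) → U H := by
    rintro H ⟨k, hk⟩
    rw [Matrix.det_mul, hud, mul_one] at hk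
    exact ⟨k, hk⟩
  have hUs : ∀ H, U (H * s) → U H := by
    rintro H ⟨k, hk⟩
    rw [Matrix.det_mul, hsd, mul_comm] at hk
    exact (U_iff40 hp0 1 _).mp ⟨k, hk⟩
  -- a nonzero element supported on `U`
  obtain ⟨f₁, hf₁, hf₁0⟩ : ∃ f₁ ∈ eigSub40 (mfull r) p a c U, f₁ ≠ 0 := by
    obtain ⟨x, y, H, hH⟩ : ∃ x y H, f x y H ≠ 0 := by
      by_contra hcon
      push Not at hcon
      exact h0 (by funext x y H; exact hcon x y H)
    have h1 := push'40 (m' := mfull r) (fun h => h * H) (fun g _ h => mul_assoc _ _ _)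
      (⟨hs, hT, hR⟩ : IsEig40 (mfull r) p a c f)
    have h2 := push40 (m' := mfull r) id U hUg (fun _ _ _ _ _ _ => rfl) h1
    refine ⟨_, ⟨h2, ?_⟩, ?_⟩
    · intro x y h hh
      exact if_neg hh
    · intro h3
      have h4 := congrFun (congrFun (congrFun h3 x) y) 1
      have h5 : U 1 := ⟨0, by rw [Matrix.det_one, pow_zero]⟩
      have h6 : f x y (1 * H) = 0 := (if_pos h5).symm.trans h4
      rw [one_mul] at h6
      exact hH h6
  -- fixed by `u`
  set Su : Module.End A (Cochain2 (Matrix (Fin 2) (Fin 2) (ZMod r)) A) :=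
    transL40 (fun H => H * u) with hSu
  set Ss : Module.End A (Cochain2 (Matrix (Fin 2) (Fin 2) (ZMod r)) A) :=
    transL40 (fun H => H * s) with hSs
  have hid : (fun H : Matrix (Fin 2) (Fin 2) (ZMod r) => H * 1) = id := by
    funext H; exact mul_one H
  have hSur : Su ^ r = 1 := by
    rw [hSu, transL_pow40, mul_right_iterate, hu, upper_pow40, ZMod.natCast_self,
      ← Matrix.one_fin_two, hid]
    rfl
  have hSsr : Ss ^ (r - 1) = 1 := by
    rw [hSs, transL_pow40, mul_right_iterate, hsdef, diag_pow40,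
      ZMod.pow_card_sub_one_eq_one hp0, ← Matrix.one_fin_two, hid]
    rfl
  have hWu : ∀ v ∈ eigSub40 (mfull r) p a c U, Su v ∈ eigSub40 (mfull r) p a c U :=
    fun v hv => transL_mem40 _ hUu (fun g _ H => mul_assoc _ _ _) v hv
  have hWs : ∀ v ∈ eigSub40 (mfull r) p a c U, Ss v ∈ eigSub40 (mfull r) p a c U :=
    fun v hv => transL_mem40 _ hUs (fun g _ H => mul_assoc _ _ _) v hv
  obtain ⟨f₂, hf₂, hf₂0, hf₂u⟩ := fix_one40 Su hSur _ hWu hf₁ hf₁0
  have hpow : ∀ v : Cochain2 (Matrix (Fin 2) (Fin 2) (ZMod r)) A, Su v = v →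
      ∀ (t : ZMod r) x y K, v x y (K * !![1, t; 0, 1]) = v x y K := by
    intro v hv t x y
    have h1 : ∀ n : ℕ, ∀ K, v x y (K * u ^ n) = v x y K := by
      intro n
      induction n with
      | zero => intro K; rw [pow_zero, mul_one]
      | succ n ih =>
        intro K
        rw [pow_succ, ← mul_assoc]
        exact (congrFun (congrFun (congrFun hv x) y) (K * u ^ n)).trans (ih K)
    intro K
    have h2 := h1 t.val K
    rw [hu, upper_pow40, ZMod.natCast_zmod_val] at h2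
    exact h2
  have hcomm : u * s = s * !![1, (p : ZMod r); 0, 1] := by
    rw [hu, hsdef]
    ext i j
    fin_cases i <;> fin_cases j <;> simp [Matrix.mul_apply]
  -- an eigenvector of `s`
  have hq0 : (Polynomial.X ^ (r - 1) - Polynomial.C 1 : Polynomial A) ≠ 0 :=
    Polynomial.X_pow_sub_C_ne_zero (by omega) _
  obtain ⟨w, ⟨hw, hwu⟩, hw0, χ, hχ⟩ := eigen40 Ss
    (eigSub40 (mfull r) p a c U ⊓ LinearMap.ker (Su - 1)) (by
      rintro v ⟨hv, hv'⟩
      have hv1 : Su v = v := sub_eq_zero.mp (LinearMap.mem_ker.mp hv')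
      refine ⟨hWs v hv, LinearMap.mem_ker.mpr (sub_eq_zero.mpr ?_)⟩
      funext x y H
      change v x y (H * u * s) = v x y (H * s)
      rw [mul_assoc, hcomm, ← mul_assoc, hpow v hv1]) (v := f₂)
    ⟨hf₂, LinearMap.mem_ker.mpr (sub_eq_zero.mpr hf₂u)⟩ hf₂0 _
    (Polynomial.X ^ (r - 1) - Polynomial.C 1 : Polynomial A) rfl hq0 (by
      rw [map_sub, map_pow, Polynomial.aeval_X, hSsr, Polynomial.C_1, map_one, sub_self]
      rfl)
  have hwu1 : Su w = w := sub_eq_zero.mp (LinearMap.mem_ker.mp hwu)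
  have hwt := hpow w hwu1
  have hws : ∀ k : ℕ, ∀ x y H, w x y (H * s ^ k) = χ ^ k * w x y H := by
    intro k
    induction k with
    | zero => intro x y H; rw [pow_zero, pow_zero, mul_one, one_mul]
    | succ k ih =>
      intro x y H
      have h1 : w x y (H * s ^ k * s) = χ * w x y (H * s ^ k) :=
        congrFun (congrFun (congrFun hχ x) y) (H * s ^ k)
      rw [pow_succ, ← mul_assoc, h1, ih, pow_succ]
      ring
  obtain ⟨x, y, H, hH⟩ : ∃ x y H, w x y H ≠ 0 := by
    by_contra hcon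
    push Not at hcon
    exact hw0 (by funext x y H; exact hcon x y H)
  have hχ0 : χ ≠ 0 := by
    intro hh
    have h1 := hws (r - 1) x y H
    rw [hh, zero_pow (by omega), zero_mul, hsdef, diag_pow40,
      ZMod.pow_card_sub_one_eq_one hp0, ← Matrix.one_fin_two, mul_one] at h1
    exact hH h1
  obtain ⟨k, hk⟩ : U H := by
    by_contra hcon
    exact hH (hw.2 x y H hcon)
  have hspow : ∀ j : ℕ, s ^ j = !![1, 0; 0, (p : ZMod r) ^ j] := by
    intro j; rw [hsdef, diag_pow40]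
  choose φ hφ using exists_col40 (r := r)
  have hmv : ∀ G : Matrix (Fin 2) (Fin 2) (ZMod r), G.det ≠ 0 → ∀ h : Fin 2 → ZMod r,
      G *ᵥ h ≠ 0 ↔ h ≠ 0 := by
    intro G hG h
    constructor
    · rintro h1 rfl
      exact h1 (Matrix.mulVec_zero _)
    · intro h1 h2
      exact h1 (Matrix.eq_zero_of_mulVec_eq_zero hG h2)
  have htw : ∀ (G : Matrix (Fin 2) (Fin 2) (ZMod r)) (j : ℕ), G.det = (p : ZMod r) ^ j →
      ∀ h : Fin 2 → ZMod r, h ≠ 0 → ∀ x y, w x y (φ (G *ᵥ h)) = (χ⁻¹) ^ j * w x y (G * φ h) := by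
    intro G j hG h hh x y
    have hG0 : G.det ≠ 0 := by rw [hG]; exact pow_ne_zero _ hp0
    obtain ⟨h1, h2, h3⟩ := hφ h hh
    obtain ⟨g1, g2, g3⟩ := hφ (G *ᵥ h) ((hmv G hG0 h).mpr hh)
    obtain ⟨t, ht⟩ := col40 (φ (G *ᵥ h) * s ^ j) (G * φ h)
      (by rw [Matrix.det_mul, g1, hspow, Matrix.det_fin_two_of]
          simpa using pow_ne_zero j hp0)
      (by rw [Matrix.det_mul, Matrix.det_mul, g1, h1, hG, hspow, Matrix.det_fin_two_of]; ring)
      (by rw [hspow, Matrix.mul_apply, Matrix.mul_apply, Fin.sum_univ_two, Fin.sum_univ_two, g2,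
            h2, h3]
          simp [Matrix.mulVec, dotProduct, Fin.sum_univ_two])
      (by rw [hspow, Matrix.mul_apply, Matrix.mul_apply, Fin.sum_univ_two, Fin.sum_univ_two, g3,
            h2, h3]
          simp [Matrix.mulVec, dotProduct, Fin.sum_univ_two])
    rw [ht, hwt, hws, inv_pow, inv_mul_cancel_left₀ (pow_ne_zero _ hχ0)]
  have hdet : ∀ g : Matrix (Fin 2) (Fin 2) ℤ,
      (g.map (Int.cast : ℤ → ZMod r)).det = ((g.det : ℤ) : ZMod r) :=
    fun g => (RingHom.map_det (Int.castRingHom (ZMod r)) g).symm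
  have hmain := pushw40 (m := mfull r) (m' := mvec r) (b := χ⁻¹) φ (fun h => h ≠ 0)
    (fun g hg h => by
      obtain ⟨j, hj⟩ := good_pow40 (r := r) hg
      exact hmv _ (by rw [hj]; exact pow_ne_zero _ hp0) h)
    (fun g hg h hh x y => by
      have h1 := htw (g.map (Int.cast : ℤ → ZMod r)) 0
        (by rw [hdet, hg, Int.cast_one, pow_zero]) h hh x y
      rw [pow_zero, one_mul] at h1
      exact h1)
    (fun g hg h hh x y => by
      have h1 := htw (g.map (Int.cast : ℤ → ZMod r)) 1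
        (by rw [hdet, hg, Int.cast_natCast, pow_one]) h hh x y
      rw [pow_one] at h1
      exact h1)
    (fun g hg h hh x y => by
      exact htw (g.map (Int.cast : ℤ → ZMod r)) 2
        (by rw [hdet, hg, Int.cast_mul, Int.cast_natCast, pow_two]) h hh x y) hw.1
  have hz := h _ _ _ hmain.symb (fun x y => if_neg (by simp)) hmain.T hmain.R (by
    rw [mul_pow, hac]; ring)
  -- the contradiction
  have hH'd : (H * s ^ (k * (r - 2))).det = 1 := by
    rw [Matrix.det_mul, hk, hspow, Matrix.det_fin_two_of, one_mul, zero_mul, sub_zero,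
      pow_unit40 hp0]
  have hH' : w x y (H * s ^ (k * (r - 2))) ≠ 0 := by
    rw [hws]
    exact mul_ne_zero (pow_ne_zero _ hχ0) hH
  generalize H * s ^ (k * (r - 2)) = K at hH'd hH'
  have hh' : (![K 0 0, K 1 0] : Fin 2 → ZMod r) ≠ 0 := by
    intro h1
    have h2 : K 0 0 = 0 := congrFun h1 0
    have h3 : K 1 0 = 0 := congrFun h1 1
    rw [Matrix.det_fin_two, h2, h3, zero_mul, mul_zero, sub_zero] at hH'd
    exact zero_ne_one hH'd
  obtain ⟨g1, g2, g3⟩ := hφ _ hh'
  obtain ⟨t, ht⟩ := col40 (φ ![K 0 0, K 1 0]) K (by rw [g1]; exact one_ne_zero)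
    (by rw [g1, hH'd]) g2.symm g3.symm
  apply hH'
  rw [ht, hwt]
  exact (if_pos hh').symm.trans (congrFun (congrFun (congrFun hz x) y) ![K 0 0, K 1 0])

end

end Pool.Agent.Helper44.MT
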