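import Pool.Agent.Helper40.MT.Base

/-!
# Block E: from level `N` to level `N r` (helper40)
-/

set_option autoImplicit false

namespace Pool.Agent.Helper44.MT

open MvPolynomial Matrix

section

variable {N r : ℕ}

/-- The matrices congruent to `1` modulo `N`. -/
def u40 (N r : ℕ) (X : Matrix (Fin 2) (Fin 2) (ZMod (N * r))) :
    Matrix (Fin 2) (Fin 2) (ZMod (N * r)) :=
  1 + (N : ZMod (N * r)) • X

theorem u_mul40 (hr : r ∣ N) (X Y : Matrix (Fin 2) (Fin 2) (ZMod (N * r))) :
    u40 N r X * u40 N r Y = u40 N r (X + Y) := by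
  have h0 : (N : ZMod (N * r)) * N = 0 := by
    rw [← Nat.cast_mul, ZMod.natCast_eq_zero_iff]
    exact mul_dvd_mul_left N hr
  unfold u40
  rw [add_mul, mul_add, mul_add, one_mul, one_mul, mul_one, smul_mul_smul_comm, h0, zero_smul,
    smul_add]
  abel

theorem u_zero40 : u40 N r 0 = 1 := by
  unfold u40
  rw [smul_zero, add_zero]

theorem u_pow40 (hr : r ∣ N) (X : Matrix (Fin 2) (Fin 2) (ZMod (N * r))) (n : ℕ) :
    u40 N r X ^ n = u40 N r (n • X) := by
  induction n with
  | zero => rw [pow_zero, zero_smul, u_zero40]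
  | succ n ih => rw [pow_succ, ih, u_mul40 hr, succ_nsmul]

theorem u_pow_r40 (hr : r ∣ N) (X : Matrix (Fin 2) (Fin 2) (ZMod (N * r))) :
    u40 N r X ^ r = 1 := by
  rw [u_pow40 hr, u40, ← Nat.cast_smul_eq_nsmul (ZMod (N * r)) r X, smul_smul, ← Nat.cast_mul,
    ZMod.natCast_self, zero_smul, add_zero]

theorem isUnit_cast40 [NeZero N] [Fact r.Prime] (hr : r ∣ N) (a : ZMod (N * r)) :
    IsUnit (ZMod.castHom (dvd_mul_right N r) (ZMod N) a) ↔ IsUnit a := by
  haveI : NeZero r := ⟨(Fact.out : r.Prime).ne_zero⟩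
  obtain ⟨n, rfl⟩ := ZMod.natCast_zmod_surjective a
  rw [map_natCast, ZMod.isUnit_iff_coprime, ZMod.isUnit_iff_coprime, Nat.coprime_mul_iff_right]
  exact ⟨fun h => ⟨h, Nat.Coprime.of_dvd_right hr h⟩, fun h => h.1⟩

theorem ker_cast40 [NeZero N] [Fact r.Prime] (a : ZMod (N * r))
    (ha : ZMod.castHom (dvd_mul_right N r) (ZMod N) a = 0) :
    ∃ b, a = (N : ZMod (N * r)) * b := by
  haveI : NeZero r := ⟨(Fact.out : r.Prime).ne_zero⟩
  obtain ⟨n, rfl⟩ := ZMod.natCast_zmod_surjective a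
  rw [map_natCast, ZMod.natCast_eq_zero_iff] at ha
  obtain ⟨k, rfl⟩ := ha
  exact ⟨k, by rw [Nat.cast_mul]⟩

/-- Reduction modulo `N`. -/
def red40 (N r : ℕ) : Matrix (Fin 2) (Fin 2) (ZMod (N * r)) →+* Matrix (Fin 2) (Fin 2) (ZMod N) :=
  (ZMod.castHom (dvd_mul_right N r) (ZMod N)).mapMatrix

theorem det_red40 (H : Matrix (Fin 2) (Fin 2) (ZMod (N * r))) :
    (red40 N r H).det = ZMod.castHom (dvd_mul_right N r) (ZMod N) H.det :=
  (RingHom.map_det _ _).symm

/-- The obvious lift of a matrix modulo `N`. -/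
def lift40 (N r : ℕ) (H : Matrix (Fin 2) (Fin 2) (ZMod N)) :
    Matrix (Fin 2) (Fin 2) (ZMod (N * r)) :=
  H.map (fun a => ((a.val : ℕ) : ZMod (N * r)))

theorem red_lift40 [NeZero N] (H : Matrix (Fin 2) (Fin 2) (ZMod N)) :
    red40 N r (lift40 N r H) = H := by
  ext i j
  change ZMod.castHom (dvd_mul_right N r) (ZMod N) (((H i j).val : ℕ) : ZMod (N * r)) = H i j
  rw [map_natCast, ZMod.natCast_zmod_val]

theorem red_int40 (g : Matrix (Fin 2) (Fin 2) ℤ) :
    red40 N r (g.map (Int.cast : ℤ → ZMod (N * r))) = g.map (Int.cast : ℤ → ZMod N) := by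
  ext i j
  change ZMod.castHom (dvd_mul_right N r) (ZMod N) ((g i j : ℤ) : ZMod (N * r)) = (g i j : ZMod N)
  rw [map_intCast]

theorem fix_all40 {A : Type*} [NeZero N] [Fact r.Prime] (hr : r ∣ N)
    (f : Cochain2 (Matrix (Fin 2) (Fin 2) (ZMod (N * r))) A)
    (hf : ∀ i j x y H, f x y (H * u40 N r (Matrix.single i j 1)) = f x y H)
    (X : Matrix (Fin 2) (Fin 2) (ZMod (N * r))) :
    ∀ x y H, f x y (H * u40 N r X) = f x y H := by
  haveI : NeZero r := ⟨(Fact.out : r.Prime).ne_zero⟩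
  have hadd : ∀ X Y, (∀ x y H, f x y (H * u40 N r X) = f x y H) →
      (∀ x y H, f x y (H * u40 N r Y) = f x y H) →
      ∀ x y H, f x y (H * u40 N r (X + Y)) = f x y H := by
    intro X Y hX hY x y H
    rw [← u_mul40 hr, ← mul_assoc, hY, hX]
  have hzero : ∀ x y H, f x y (H * u40 N r 0) = f x y H := by
    intro x y H
    rw [u_zero40, mul_one]
  have hns : ∀ X, (∀ x y H, f x y (H * u40 N r X) = f x y H) →
      ∀ n : ℕ, ∀ x y H, f x y (H * u40 N r (n • X)) = f x y H := by
    intro X hX n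
    induction n with
    | zero => rw [zero_smul]; exact hzero
    | succ n ih => rw [succ_nsmul]; exact hadd _ _ ih hX
  have hsing : ∀ i j (b : ZMod (N * r)), ∀ x y H,
      f x y (H * u40 N r (Matrix.single i j b)) = f x y H := by
    intro i j b
    have h1 := hns _ (hf i j) b.val
    rw [Matrix.smul_single, nsmul_one, ZMod.natCast_zmod_val] at h1
    exact h1
  rw [Matrix.matrix_eq_sum_single X, Fin.sum_univ_two, Fin.sum_univ_two, Fin.sum_univ_two]
  exact hadd _ _ (hadd _ _ (hsing _ _ _) (hsing _ _ _)) (hadd _ _ (hsing _ _ _) (hsing _ _ _))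

/-- A function fixed by all translations depends on the reduction modulo `N` only. -/
theorem dep40 {A : Type*} [NeZero N] [Fact r.Prime] (hr : r ∣ N)
    (f : Cochain2 (Matrix (Fin 2) (Fin 2) (ZMod (N * r))) A)
    (hf : ∀ X x y H, f x y (H * u40 N r X) = f x y H)
    (H₁ H₂ : Matrix (Fin 2) (Fin 2) (ZMod (N * r))) (h12 : red40 N r H₁ = red40 N r H₂)
    (hU : IsUnit (red40 N r H₁).det) (x y : Fin 2 → ℤ) : f x y H₁ = f x y H₂ := by
  have hU1 : IsUnit H₁.det := by
    rw [det_red40, isUnit_cast40 hr] at hU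
    exact hU
  have h1 : H₁ * (H₁⁻¹ * H₂) = H₂ := by
    rw [← mul_assoc, Matrix.mul_nonsing_inv _ hU1, one_mul]
  have h2 : red40 N r (H₁⁻¹ * H₂) = 1 := by
    rw [map_mul, ← h12, ← map_mul, Matrix.nonsing_inv_mul _ hU1, map_one]
  have h3 : ∀ i j, ∃ b, (H₁⁻¹ * H₂ - 1) i j = (N : ZMod (N * r)) * b := by
    intro i j
    apply ker_cast40
    have h4 : red40 N r (H₁⁻¹ * H₂ - 1) = 0 := by rw [map_sub, h2, map_one, sub_self]
    exact congrFun (congrFun h4 i) j
  choose X hX using h3
  have h5 : H₁⁻¹ * H₂ = u40 N r (Matrix.of X) := by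
    ext i j
    have h6 := hX i j
    rw [Matrix.sub_apply, sub_eq_iff_eq_add] at h6
    rw [h6, u40, Matrix.add_apply, Matrix.smul_apply, Matrix.of_apply, smul_eq_mul, add_comm]
  rw [← h1, h5, hf]

end

section

variable {A : Type*} [Field A]

theorem good_unit40 {M p : ℕ} (hp : p.Coprime M) {g : Matrix (Fin 2) (Fin 2) ℤ}
    (hg : Good40 p g) : IsUnit (g.map (Int.cast : ℤ → ZMod M)).det := by
  have h1 : (g.map (Int.cast : ℤ → ZMod M)).det = ((g.det : ℤ) : ZMod M) := by
    have := (RingHom.map_det (Int.castRingHom (ZMod M)) g).symm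
    exact this
  have h2 : IsUnit ((p : ℤ) : ZMod M) := by
    rw [Int.cast_natCast, ZMod.isUnit_iff_coprime]
    exact hp
  rw [h1]
  rcases hg with h | h | h
  · rw [h, Int.cast_one]; exact isUnit_one
  · rw [h]; exact h2
  · rw [h, Int.cast_mul]; exact h2.mul h2

theorem mfull_unit40 {M p : ℕ} (hp : p.Coprime M) {g : Matrix (Fin 2) (Fin 2) ℤ}
    (hg : Good40 p g) (H : Matrix (Fin 2) (Fin 2) (ZMod M)) :
    IsUnit (mfull M g H).det ↔ IsUnit H.det := by
  rw [mfull, Matrix.det_mul, IsUnit.mul_iff]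
  exact ⟨fun h => h.2, fun h => ⟨good_unit40 hp hg, h⟩⟩

open Classical in
/-- We may assume that `f` is supported on invertible matrices and is nonzero at `1`. -/
theorem norm40 {M p : ℕ} (hp : p.Coprime M) {a c : A}
    {f : Cochain2 (Matrix (Fin 2) (Fin 2) (ZMod M)) A} (hf : IsEig40 (mfull M) p a c f)
    (h0 : f ≠ 0) :
    ∃ f' ∈ eigSub40 (mfull M) p a c (fun H => IsUnit H.det), f' ≠ 0 := by
  obtain ⟨x, y, H, hH⟩ : ∃ x y H, f x y H ≠ 0 := by
    by_contra hcon
    push Not at hcon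
    exact h0 (by funext x y H; exact hcon x y H)
  have h1 := push'40 (m' := mfull M) (fun h => h * H) (fun g _ h => mul_assoc _ _ _) hf
  have h2 := push40 (m' := mfull M) id (fun h => IsUnit h.det)
    (fun g hg h => mfull_unit40 hp hg h) (fun _ _ _ _ _ _ => rfl) h1
  refine ⟨_, ⟨h2, ?_⟩, ?_⟩
  · intro x y h hh
    exact if_neg hh
  · intro h3
    have h4 := congrFun (congrFun (congrFun h3 x) y) 1
    have h5 : IsUnit (1 : Matrix (Fin 2) (Fin 2) (ZMod M)).det := by
      rw [Matrix.det_one]; exact isUnit_one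
    change (if IsUnit (1 : Matrix (Fin 2) (Fin 2) (ZMod M)).det then f x y (1 * H) else 0) = 0
      at h4
    rw [if_pos h5, one_mul] at h4
    exact hH h4

open Classical in
/-- block E (helper40): levels -/
theorem lemE {r : ℕ} [Fact r.Prime] [CharP A r] {N p : ℕ} [NeZero N]
    (hr : r ∣ N) (hp : p.Coprime N) (h : Regular2 A (mfull N) p (fun _ => True)) :
    Regular2 A (mfull (N * r)) p (fun _ => True) := by
  intro f a c hs _ hT hR hac
  by_contra h0
  have hpM : p.Coprime (N * r) :=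
    Nat.Coprime.mul_right hp (Nat.Coprime.of_dvd_right hr hp)
  obtain ⟨f₁, hf₁, hf₁0⟩ := norm40 hpM ⟨hs, hT, hR⟩ h0
  let S : Fin 2 × Fin 2 → Module.End A (Cochain2 (Matrix (Fin 2) (Fin 2) (ZMod (N * r))) A) :=
    fun i => transL40 (fun H => H * u40 N r (Matrix.single i.1 i.2 1))
  have hu : ∀ X, IsUnit (u40 N r X).det := by
    intro X
    have h1 : u40 N r X * u40 N r (-X) = 1 := by
      rw [u_mul40 hr, add_neg_cancel, u_zero40]
    exact (Matrix.isUnit_iff_isUnit_det _).mp (IsUnit.of_mul_eq_one _ h1)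
  obtain ⟨f₂, hf₂, hf₂0, hfix⟩ := fix_list40 S (by
      intro i
      change transL40 _ ^ r = 1
      rw [transL_pow40, mul_right_iterate, u_pow_r40 hr]
      have h1 : (fun H : Matrix (Fin 2) (Fin 2) (ZMod (N * r)) => H * 1) = id := by
        funext H; exact mul_one H
      rw [h1]; rfl) (by
      intro i j
      change transL40 _ * transL40 _ = transL40 _ * transL40 _
      rw [transL_mul40, transL_mul40]
      congr 1
      funext H
      change H * u40 N r _ * u40 N r _ = H * u40 N r _ * u40 N r _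
      rw [mul_assoc, mul_assoc, u_mul40 hr, u_mul40 hr, add_comm]) Finset.univ.toList
      (eigSub40 (mfull (N * r)) p a c (fun H => IsUnit H.det)) (by
      intro i v hv
      refine transL_mem40 _ ?_ ?_ v hv
      · intro H hH
        rw [Matrix.det_mul, IsUnit.mul_iff] at hH
        exact hH.1
      · intro g _ H
        exact mul_assoc _ _ _) hf₁ hf₁0
  have hall := fix_all40 hr f₂ (by
    intro i j x y H
    have h1 := hfix (i, j) (by simp)
    exact congrFun (congrFun (congrFun h1 x) y) H)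
  have hred : ∀ g (H : Matrix (Fin 2) (Fin 2) (ZMod (N * r))),
      red40 N r (mfull (N * r) g H) = mfull N g (red40 N r H) := by
    intro g H
    rw [mfull, map_mul, red_int40]; rfl
  have h4 := push40 (m' := mfull N) (lift40 N r) (fun H => IsUnit H.det)
    (fun g hg H => mfull_unit40 hp hg H) (fun g hg H hH x y => by
      refine dep40 hr f₂ hall _ _ ?_ ?_ x y
      · rw [hred, red_lift40, red_lift40]
      · rw [red_lift40]
        exact (mfull_unit40 hp hg H).mpr hH) hf₂.1
  have h5 := h _ a c h4.symb trivial h4.T h4.R hac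
  apply hf₂0
  funext x y H
  by_cases hH : IsUnit H.det
  · have hH' : IsUnit (red40 N r H).det := by
      rw [det_red40, isUnit_cast40 hr]; exact hH
    have h6 := congrFun (congrFun (congrFun h5 x) y) (red40 N r H)
    replace h6 : f₂ x y (lift40 N r (red40 N r H)) = 0 := (if_pos hH').symm.trans h6
    rw [← dep40 hr f₂ hall (lift40 N r (red40 N r H)) H (red_lift40 _)
      (by rw [red_lift40]; exact hH') x y, h6]
    rfl
  · exact hf₂.2 x y H hH

end

end Pool.Agent.Helper44.MT
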